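import Pool.Agent.N931.PN.Stm
import Pool.Agent.N116.EW.Law
import Pool.Agent.H389R2.NS.Pair2

/-!
PN/STAB (helper530): two layers with correlation `1 - ε` and the monotone coupling.
-/

set_option autoImplicit false

namespace Pool.Agent.N530.PN.STAB

open H974 H12S H389NS H984N H984P H342P Finset
open Pool.Agent.N116.EW Pool.Agent.N931.PN

variable {E : Type*} [DecidableEq E]

theorem key (ε : ℝ) (S : Finset E) (f : Finset E → Finset E → ℝ) :
    E2 (fun _ => 1 - ε) S (fun F F' => f F (F ∪ F')) =
      Ex (fun _ => (1 / 2 : ℝ)) S (fun B => Ex (fun _ => ε / 2) S (fun H => f B (B ∪ H))) := by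
  induction S using Finset.induction_on generalizing f with
  | empty => simp [Ex_empty, H389NS.A7.E2_empty]
  | insert a S ha ih =>
    rw [H389NS.A7.E2_insert _ ha, Ex_insert _ ha]
    have c1 : ∀ F F' : Finset E, insert a F ∪ insert a F' = insert a (F ∪ F') := by
      intro F F'
      ext x
      simp only [Finset.mem_union, Finset.mem_insert]
      tauto
    have c2 : ∀ F F' : Finset E, insert a F ∪ F' = insert a (F ∪ F') := by
      intro F F'
      ext x
      simp only [Finset.mem_union, Finset.mem_insert]
      tauto
    have c3 : ∀ F F' : Finset E, F ∪ insert a F' = insert a (F ∪ F') := by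
      intro F F'
      ext x
      simp only [Finset.mem_union, Finset.mem_insert]
      tauto
    have h1 : ∀ B : Finset E, Ex (fun _ => ε / 2) (insert a S) (fun H => f (insert a B)
        (insert a B ∪ H)) = Ex (fun _ => ε / 2) S (fun H => f (insert a B) (insert a (B ∪ H))) := by
      intro B
      rw [Ex_insert _ ha]
      simp only [c1, c2, c3]
      ring
    have h2 : ∀ B : Finset E, Ex (fun _ => ε / 2) (insert a S) (fun H => f B (B ∪ H)) =
        ε / 2 * Ex (fun _ => ε / 2) S (fun H => f B (insert a (B ∪ H))) +
          (1 - ε / 2) * Ex (fun _ => ε / 2) S (fun H => f B (B ∪ H)) := by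
      intro B
      rw [Ex_insert _ ha]
      simp only [c3]
    simp only [h1, h2]
    simp only [c1, c2, c3]
    rw [Ex_add, Ex_mul_left, Ex_mul_left, ih f, ih (fun F G => f (insert a F) (insert a G)),
      ih (fun F G => f F (insert a G))]
    ring

theorem E2_comm (ρ : E → ℝ) (S : Finset E) (h : Finset E → Finset E → ℝ) :
    E2 ρ S (fun F F' => h F' F) = E2 ρ S h := by
  induction S using Finset.induction_on generalizing h with
  | empty => simp [H389NS.A7.E2_empty]
  | insert a S ha ih =>
    rw [H389NS.A7.E2_insert _ ha, H389NS.A7.E2_insert _ ha, ih h,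
      ih (fun F F' => h (insert a F) (insert a F')), ih (fun F F' => h (insert a F) F'),
      ih (fun F F' => h F (insert a F'))]
    ring

theorem main : Pool.Agent.N931.PN.S_STAB := by
  intro S ε _ _ A
  have h1 : E2 (fun _ => 1 - ε) S (fun F F' => ind (A F (F ∪ F'))) = PC true (ε / 2) S A := by
    rw [PC_eq]
    simp only [if_true]
    exact key ε S (fun F G => ind (A F G))
  refine ⟨h1, ?_⟩
  rw [← h1, ← E2_comm]
  congr 1
  funext F F'
  rw [Finset.union_comm]

end Pool.Agent.N530.PN.STAB
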